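import Pool.Agent.H88.KTH.CHD
import Pool.Agent.H60.LQ.Cfg

/-!
# LQ, row CHD2: the chords of a configuration, strong form
-/

set_option autoImplicit false

namespace Pool.LQ

open Finset Real
open Pool.Agent.H49.Ent Pool.Agent.H32.Dense Pool.KTH
open Pool.Agent.H24.KTH (dsv lvv lev cap Yf kp sz Pt)

variable {d J : ℕ}

theorem chd2 (hK : KPS2Stmt) (hC : CGP2Stmt) : CHD2Stmt := by
  intro d
  obtain ⟨C₀, hcho⟩ := Pool.Agent.H24.KTH.cho Pool.Agent.H24.KTH.vec d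
  obtain ⟨CK, hCK0, hCK⟩ := hK d
  obtain ⟨CC, hCC0, hCC⟩ := hC d
  have hlJ : ∀ J : ℕ, 0 ≤ Real.log ((J : ℝ) + 2) := fun J => Real.log_nonneg (by
      have : (0 : ℝ) ≤ J := Nat.cast_nonneg J
      linarith)
  have hlog1 : ∀ x : ℝ, 0 ≤ Real.log (1 + |x|) := fun x =>
    Real.log_nonneg (by linarith [abs_nonneg x])
  have hlog2 : ∀ x : ℝ, 0 ≤ Real.log (1 + |x|⁻¹) := fun x =>
    Real.log_nonneg (by linarith [inv_nonneg.mpr (abs_nonneg x)])
  constructor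
  · refine ⟨|C₀| * (2 + CK + 3), by positivity, ?_⟩
    intro J F
    have hq := F.hq
    have h1 := F.h1
    have hE := hlJ J
    have main := hcho F.Ω F.ζ (2 ^ J) F.q F.Z F.v₀ F.u₀ F.v₁ F.t F.s F.t₁
      (fun w => F.r w - F.t w) F.c (fun w => rd (pos (2 ^ J) (F.u₁ w) (F.v₁ w) (F.r w)))
      (fun w => xf (2 ^ J) (F.u₀ w) (F.v₀ w) (F.s w) (F.c w) (F.v₁ w))
      (chd_ptB F) (chd_ptO F) F.ht₁ (by
        intro w
        show ct (F.t w) (F.s w) (F.t₁ w) (F.r w) = _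
        unfold ct
        push_cast
        rfl)
    have step1 : CH F.q F.O (fun w => ((F.A w, F.B w), F.TO w, F.Z w)) ≤
        CH F.q (fun w => xf (2 ^ J) (F.u₀ w) (F.v₀ w) (F.s w) (F.c w) (F.v₁ w))
          (fun w => ((F.A w, F.B w), F.TO w, F.Z w)) := by
      refine CH_mono_left hq ?_
      intro w w' _ _ h
      simp only [Prod.mk.injEq] at h
      obtain ⟨h3, _, h4, _⟩ := h
      exact Prod.ext h4 h3
    have step2 : CH F.q (fun w => xf (2 ^ J) (F.u₀ w) (F.v₀ w) (F.s w) (F.c w) (F.v₁ w))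
          (fun w => ((F.A w, F.B w), F.TO w, F.Z w)) ≤
        CH F.q (fun w => xf (2 ^ J) (F.u₀ w) (F.v₀ w) (F.s w) (F.c w) (F.v₁ w))
          (fun ω => ((F.t₁ ω, rd (pos (2 ^ J) (F.u₀ ω) (F.v₀ ω) (F.t₁ ω))),
            (F.t ω + (F.r ω - F.t ω), rd (pos (2 ^ J) (F.u₁ ω) (F.v₁ ω) (F.r ω))),
            F.s ω + F.c ω)) := by
      refine CH_mono_cond hq ?_
      intro w w' _ _ h
      simp only [Prod.mk.injEq] at h
      obtain ⟨⟨hA, hB⟩, hTO, _⟩ := h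
      have hA1 : F.t₁ w = F.t₁ w' := (Prod.ext_iff.mp hA).1
      have hA2 : rd (pos (2 ^ J) (F.u₀ w) (F.v₀ w) (F.t₁ w)) =
        rd (pos (2 ^ J) (F.u₀ w') (F.v₀ w') (F.t₁ w')) := (Prod.ext_iff.mp hA).2
      have hB1 : F.r w = F.r w' := (Prod.ext_iff.mp hB).1
      have hB2 : rd (pos (2 ^ J) (F.u₁ w) (F.v₁ w) (F.r w)) =
        rd (pos (2 ^ J) (F.u₁ w') (F.v₁ w') (F.r w')) := (Prod.ext_iff.mp hB).2
      have hTO' : F.s w + F.c w = F.s w' + F.c w' := hTO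
      refine Prod.ext (Prod.ext hA1 hA2) (Prod.ext (Prod.ext ?_ hB2) hTO')
      simp only
      rw [add_sub_cancel, add_sub_cancel, hB1]
    have hg1 : Ex F.q (fun ω => sz (2 ^ J) (((F.r ω - F.t ω : ℤ) : ℝ))) ≤ 1 + F.eg F.r F.t := by
      calc Ex F.q (fun ω => sz (2 ^ J) (((F.r ω - F.t ω : ℤ) : ℝ))) ≤
          Ex F.q (fun ω => 1 + gp J (F.r ω) (F.t ω)) := Ex_mono hq fun w hw =>
            chd_sz_gap (F.hr w hw) (F.ht w hw) (by push_cast; ring)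
        _ = 1 + F.eg F.r F.t := by rw [Ex_add, Ex_const h1]; rfl
    have hg2 : Ex F.q (fun ω => sz (2 ^ J) ((F.t ω : ℝ) + ((F.r ω - F.t ω : ℤ) : ℝ) - F.t₁ ω)) ≤
        1 + F.eg F.r F.t₁ := by
      calc Ex F.q (fun ω => sz (2 ^ J) ((F.t ω : ℝ) + ((F.r ω - F.t ω : ℤ) : ℝ) - F.t₁ ω)) ≤
          Ex F.q (fun ω => 1 + gp J (F.r ω) (F.t₁ ω)) := Ex_mono hq fun w hw =>
            chd_sz_gap (F.hr w hw) (F.ht₁ w hw) (by push_cast; ring)
        _ = 1 + F.eg F.r F.t₁ := by rw [Ex_add, Ex_const h1]; rfl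
    have hK1 := hCK J F
    simp only at hK1
    have p1 := chd_eg_nonneg F F.t F.s
    have p2 := chd_eg_nonneg F F.t₁ F.t
    have p3 := chd_eg_nonneg F F.t₁ F.s
    have p4 := chd_eg_nonneg F F.r F.t
    have p5 := chd_eg_nonneg F F.r F.s
    have p6 := chd_eg_nonneg F F.r F.t₁
    have p7 := chd_eg_nonneg F F.tr F.s
    have p8 := chd_eg_nonneg F F.ta F.s
    have p9 := chd_eg_nonneg F F.ta F.tr
    have p10 := chd_eg_nonneg F F.ta F.TO
    have hen : en F = F.eg F.t F.s + F.eg F.t₁ F.t + F.eg F.t₁ F.s + F.eg F.r F.t +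
      F.eg F.r F.s + F.eg F.r F.t₁ + F.eg F.tr F.s + F.eg F.ta F.s + F.eg F.ta F.tr +
      F.eg F.ta F.TO := rfl
    have hE1 : 1 ≤ en F + 1 + Real.log ((J : ℝ) + 2) := by linarith
    have k1 : 0 ≤ Ex F.q (fun w => Real.log (1 + |F.k₁ w|)) :=
      Ex_nonneg hq fun w _ => hlog1 _
    have k2 : 0 ≤ Ex F.q (fun w => Real.log (1 + |F.k₁ w|⁻¹)) :=
      Ex_nonneg hq fun w _ => hlog2 _
    have k3 : 0 ≤ Ex F.q (fun w => Real.log (1 + |F.k₂ w|)) :=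
      Ex_nonneg hq fun w _ => hlog1 _
    have k4 : 0 ≤ Ex F.q (fun w => Real.log (1 + |F.k₂ w|⁻¹)) :=
      Ex_nonneg hq fun w _ => hlog2 _
    have s1 : 0 ≤ Ex F.q (fun ω => sz (2 ^ J) (((F.r ω - F.t ω : ℤ) : ℝ))) :=
      Ex_nonneg hq fun w _ => chd_sz_nonneg _ _
    have s2 : 0 ≤ Ex F.q (fun ω =>
        sz (2 ^ J) ((F.t ω : ℝ) + ((F.r ω - F.t ω : ℤ) : ℝ) - F.t₁ ω)) :=
      Ex_nonneg hq fun w _ => chd_sz_nonneg _ _
    have kk : Ex F.q (fun ω => Real.log (1 + |kap (F.t ω) (F.s ω) (F.t₁ ω)|)) =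
      Ex F.q (fun w => Real.log (1 + |F.k₁ w|)) := rfl
    rw [kk] at main
    have fin : CH F.q F.O (fun w => ((F.A w, F.B w), F.TO w, F.Z w)) ≤
        C₀ * (Ex F.q (fun ω => sz (2 ^ J) (((F.r ω - F.t ω : ℤ) : ℝ))) +
          Ex F.q (fun ω => sz (2 ^ J) ((F.t ω : ℝ) + ((F.r ω - F.t ω : ℤ) : ℝ) - F.t₁ ω)) +
          Ex F.q (fun w => Real.log (1 + |F.k₁ w|)) + 1) := (step1.trans step2).trans main
    refine fin.trans ?_
    refine (mul_le_mul_of_nonneg_right (le_abs_self C₀) (by linarith)).trans ?_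
    rw [mul_assoc]
    refine mul_le_mul_of_nonneg_left ?_ (abs_nonneg _)
    nlinarith
  · refine ⟨|C₀| * (1 + CK + 2 * CC + 2), by positivity, ?_⟩
    intro J F
    have hq := F.hq
    have h1 := F.h1
    have hE := hlJ J
    have main := hcho F.Ω F.ζ (2 ^ J) F.q F.Z F.v₂ F.u₂ F.v₁ F.s F.tr F.ta
      F.c F.c₂ (fun w => xf (2 ^ J) (F.u₀ w) (F.v₀ w) (F.s w) (F.c w) (F.v₁ w))
      (fun w => xf (2 ^ J) (F.u₂ w) (F.v₂ w) (F.tr w) (F.c₂ w) (F.v₁ w))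
      (chd_ptO₂ F) (chd_ptY F) F.hta (by
        intro w
        rfl)
    have step1 : CH F.q F.Y (fun w => ((F.A₂ w, F.O w), F.TY w, F.Z w)) ≤
        CH F.q (fun w => xf (2 ^ J) (F.u₂ w) (F.v₂ w) (F.tr w) (F.c₂ w) (F.v₁ w))
          (fun w => ((F.A₂ w, F.O w), F.TY w, F.Z w)) := by
      refine CH_mono_left hq ?_
      intro w w' _ _ h
      simp only [Prod.mk.injEq] at h
      obtain ⟨h3, _, h4, _⟩ := h
      exact Prod.ext h4 h3
    have step2 : CH F.q (fun w => xf (2 ^ J) (F.u₂ w) (F.v₂ w) (F.tr w) (F.c₂ w) (F.v₁ w))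
          (fun w => ((F.A₂ w, F.O w), F.TY w, F.Z w)) ≤
        CH F.q (fun w => xf (2 ^ J) (F.u₂ w) (F.v₂ w) (F.tr w) (F.c₂ w) (F.v₁ w))
          (fun ω => ((F.ta ω, rd (pos (2 ^ J) (F.u₂ ω) (F.v₂ ω) (F.ta ω))),
            (F.s ω + F.c ω, xf (2 ^ J) (F.u₀ ω) (F.v₀ ω) (F.s ω) (F.c ω) (F.v₁ ω)),
            F.tr ω + F.c₂ ω)) := by
      refine CH_mono_cond hq ?_
      intro w w' _ _ h
      simp only [Prod.mk.injEq] at h
      obtain ⟨⟨hA, hO⟩, hTY, _⟩ := h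
      exact Prod.ext hA (Prod.ext hO hTY)
    have hg1 : Ex F.q (fun ω => sz (2 ^ J) ((F.c ω : ℤ) : ℝ)) ≤ F.big F.c + F.sml F.c := by
      calc Ex F.q (fun ω => sz (2 ^ J) ((F.c ω : ℤ) : ℝ)) =
          Ex F.q (fun ω => Real.log (1 + |(F.c ω : ℝ)| / 2 ^ J) +
            Real.log (1 + 2 ^ J / max 1 |(F.c ω : ℝ)|)) := by
            congr 1
            funext w
            exact chd_sz_eq J _
        _ = F.big F.c + F.sml F.c := by rw [Ex_add]; rfl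
        _ ≤ _ := le_refl _
    have hg2 : Ex F.q (fun ω => sz (2 ^ J) ((F.s ω : ℝ) + (F.c ω : ℝ) - F.ta ω)) ≤
        1 + F.big F.c + F.eg F.ta F.TO := by
      calc Ex F.q (fun ω => sz (2 ^ J) ((F.s ω : ℝ) + (F.c ω : ℝ) - F.ta ω)) ≤
          Ex F.q (fun ω => 1 + Real.log (1 + |(F.c ω : ℝ)| / 2 ^ J) +
            gp J (F.ta ω) (F.TO ω)) := Ex_mono hq fun w hw => by
              refine (chd_sz_add (F.hs w hw) (F.hta w hw) rfl).trans ?_
              have e1 : |(F.s w : ℝ) + (F.c w : ℝ) - F.ta w| = |(F.ta w : ℝ) - F.TO w| := by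
                rw [abs_sub_comm]
                unfold Cf.TO
                push_cast
                rfl
              rw [e1]
              exact le_refl _
        _ = 1 + F.big F.c + F.eg F.ta F.TO := by rw [Ex_add, Ex_add, Ex_const h1]; rfl
    have hK1 := hCK J F
    have hC1 := hCC J F
    simp only at hK1 hC1
    have p1 := chd_eg_nonneg F F.t F.s
    have p2 := chd_eg_nonneg F F.t₁ F.t
    have p3 := chd_eg_nonneg F F.t₁ F.s
    have p4 := chd_eg_nonneg F F.r F.t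
    have p5 := chd_eg_nonneg F F.r F.s
    have p6 := chd_eg_nonneg F F.r F.t₁
    have p7 := chd_eg_nonneg F F.tr F.s
    have p8 := chd_eg_nonneg F F.ta F.s
    have p9 := chd_eg_nonneg F F.ta F.tr
    have p10 := chd_eg_nonneg F F.ta F.TO
    have hen : en F = F.eg F.t F.s + F.eg F.t₁ F.t + F.eg F.t₁ F.s + F.eg F.r F.t +
      F.eg F.r F.s + F.eg F.r F.t₁ + F.eg F.tr F.s + F.eg F.ta F.s + F.eg F.ta F.tr +
      F.eg F.ta F.TO := rfl
    have hE1 : 1 ≤ en F + 1 + Real.log ((J : ℝ) + 2) := by linarith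
    have k1 : 0 ≤ Ex F.q (fun w => Real.log (1 + |F.k₁ w|)) :=
      Ex_nonneg hq fun w _ => hlog1 _
    have k2 : 0 ≤ Ex F.q (fun w => Real.log (1 + |F.k₁ w|⁻¹)) :=
      Ex_nonneg hq fun w _ => hlog2 _
    have k3 : 0 ≤ Ex F.q (fun w => Real.log (1 + |F.k₂ w|)) :=
      Ex_nonneg hq fun w _ => hlog1 _
    have k4 : 0 ≤ Ex F.q (fun w => Real.log (1 + |F.k₂ w|⁻¹)) :=
      Ex_nonneg hq fun w _ => hlog2 _
    have c1 : ∀ x : F.Ω → ℤ, 0 ≤ F.big x := fun x => Ex_nonneg hq fun w _ => Real.log_nonneg (by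
      have : 0 ≤ |(x w : ℝ)| / 2 ^ J := by positivity
      linarith)
    have c2 : ∀ x : F.Ω → ℤ, 0 ≤ F.sml x := fun x => Ex_nonneg hq fun w _ => Real.log_nonneg (by
      have : 0 ≤ 2 ^ J / max 1 |(x w : ℝ)| := by positivity
      linarith)
    have q1 := c1 F.c
    have q2 := c2 F.c
    have q3 := c1 F.c₂
    have q4 := c2 F.c₂
    have s1 : 0 ≤ Ex F.q (fun ω => sz (2 ^ J) ((F.c ω : ℤ) : ℝ)) :=
      Ex_nonneg hq fun w _ => chd_sz_nonneg _ _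
    have s2 : 0 ≤ Ex F.q (fun ω => sz (2 ^ J) ((F.s ω : ℝ) + (F.c ω : ℝ) - F.ta ω)) :=
      Ex_nonneg hq fun w _ => chd_sz_nonneg _ _
    have kk : Ex F.q (fun ω => Real.log (1 + |kap (F.s ω) (F.tr ω) (F.ta ω)|)) =
      Ex F.q (fun w => Real.log (1 + |F.k₂ w|)) := rfl
    rw [kk] at main
    have fin : CH F.q F.Y (fun w => ((F.A₂ w, F.O w), F.TY w, F.Z w)) ≤
        C₀ * (Ex F.q (fun ω => sz (2 ^ J) ((F.c ω : ℤ) : ℝ)) +
          Ex F.q (fun ω => sz (2 ^ J) ((F.s ω : ℝ) + (F.c ω : ℝ) - F.ta ω)) +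
          Ex F.q (fun w => Real.log (1 + |F.k₂ w|)) + 1) := (step1.trans step2).trans main
    refine fin.trans ?_
    refine (mul_le_mul_of_nonneg_right (le_abs_self C₀) (by linarith)).trans ?_
    rw [mul_assoc]
    refine mul_le_mul_of_nonneg_left ?_ (abs_nonneg _)
    nlinarith

end Pool.LQ
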