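import Pool.Agent.H40.LQ.AIL2
import Pool.Agent.H60.LQ.Two

/-!
# LQ, row AIL3: the information `I(v₂; Y)`
-/

set_option autoImplicit false

namespace Pool.LQ

open Finset Real
open Pool.Agent.H49.Ent Pool.Agent.H32.Dense Pool.KTH

/-- AIL3 -/
theorem ail3 (hT : TLN2Stmt) : AIL3Stmt := by
  intro d hd ε hε
  obtain ⟨C, hC, h⟩ := ail2 hT d hd ε hε
  refine ⟨C, hC, fun J F L sb K G hok => ?_⟩
  have h1 := h J F L sb K G hok
  have h2 : CH F.q (fun w => (F.v₂ w, F.Y w)) F.Z = F.FI.L + F.yh := by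
    rw [CH_chain F.hq, add_comm]
    rfl
  have h3 : F.iy = CH F.q F.v₂ F.Z + F.yh - CH F.q (fun w => (F.v₂ w, F.Y w)) F.Z := rfl
  have h4 := hok.l2
  rw [h2, h4] at h3
  linarith

end Pool.LQ
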